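import Pool.Agent.H2.VG.CNNb

/-!
# Module CNN: bounded holomorphic functions extend, locally constant functions are constant
-/

open MeasureTheory Set Filter Topology
open scoped ENNReal NNReal ContDiff ComplexConjugate

namespace Pool.Agent.H2.VG

open Pool.Agent.H95.VG

variable {n : ℕ}

theorem nsq_smul (t : ℝ) (z : V n) : nsq (t • z) = t ^ 2 * nsq z := by
  unfold nsq
  rw [Finset.mul_sum]
  refine Finset.sum_congr rfl fun i _ => ?_
  rw [Pi.smul_apply, norm_smul, mul_pow, Real.norm_eq_abs, sq_abs]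

theorem nsq_nonneg (z : V n) : 0 ≤ nsq z := Finset.sum_nonneg fun _ _ => sq_nonneg _

/-- cutoff at the origin -/
noncomputable def psi (n : ℕ) (m : ℕ) (z : V n) : ℝ := 1 - chi (((m : ℝ) + 1) • z)

theorem psi_contDiff (hCUT : T_CUT) (m : ℕ) : ContDiff ℝ ∞ (psi n m) := by
  unfold psi
  exact contDiff_const.sub ((hCUT n).1.comp (contDiff_const_smul _))

theorem psi_bounds (hCUT : T_CUT) (m : ℕ) (z : V n) : 0 ≤ psi n m z ∧ psi n m z ≤ 1 := by
  have h := (hCUT n).2.2.1 (((m : ℝ) + 1) • z)
  unfold psi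
  constructor <;> linarith [h.1, h.2.1]

theorem psi_dr (m : ℕ) (z v : V n) :
    dr (psi n m) z v = -(((m : ℝ) + 1 : ℝ) : ℂ) * dr chi (((m : ℝ) + 1) • z) v := by
  have h1 : fderiv ℝ (psi n m) z = -(((m : ℝ) + 1) • fderiv ℝ chi (((m : ℝ) + 1) • z)) := by
    unfold psi
    rw [fderiv_const_sub]
    congr 1
    exact fderiv_comp_smul (f := (chi : V n → ℝ)) ((m : ℝ) + 1)
  unfold dr
  rw [h1]
  simp only [neg_apply, smul_apply, smul_eq_mul]
  push_cast
  ring

theorem psi_tendsto (hCUT : T_CUT) {z : V n} (hz : 0 < nsq z) :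
    Tendsto (fun m => psi n m z) atTop (𝓝 1) := by
  obtain ⟨N, hN⟩ := exists_nat_gt (1 / nsq z)
  refine tendsto_const_nhds.congr' ?_
  filter_upwards [eventually_ge_atTop N] with m hm
  have h1 : (1 : ℝ) / 2 ≤ nsq (((m : ℝ) + 1) • z) := by
    rw [nsq_smul]
    have h2 : (N : ℝ) ≤ m := by exact_mod_cast hm
    have h3 : 1 / nsq z ≤ (m : ℝ) + 1 := by linarith
    have h4 : 1 ≤ ((m : ℝ) + 1) * nsq z := by
      rwa [div_le_iff₀ hz] at h3
    have h5 : (1 : ℝ) ≤ (m : ℝ) + 1 := by
      have : (0 : ℝ) ≤ m := Nat.cast_nonneg m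
      linarith
    have h6 : ((m : ℝ) + 1) * nsq z ≤ ((m : ℝ) + 1) ^ 2 * nsq z := by
      refine mul_le_mul_of_nonneg_right ?_ hz.le
      rw [pow_two]
      exact le_mul_of_one_le_left (by linarith) h5
    linarith
  have h2 := ((hCUT n).2.2.1 (((m : ℝ) + 1) • z)).2.2.2 h1
  unfold psi
  rw [h2, sub_zero]

theorem psi_zero (hCUT : T_CUT) (m : ℕ) : ∀ᶠ z in 𝓝 (0 : V n), psi n m z = 0 := by
  have h1 : {z : V n | nsq z < 1 / (4 * ((m : ℝ) + 1) ^ 2)} ∈ 𝓝 (0 : V n) := by
    refine (isOpen_nsq _).mem_nhds ?_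
    have : nsq (0 : V n) = 0 := by simp [nsq]
    show nsq (0 : V n) < _
    rw [this]
    positivity
  filter_upwards [h1] with z hz
  have h2 : nsq (((m : ℝ) + 1) • z) ≤ 1 / 4 := by
    rw [nsq_smul]
    have h3 : (0 : ℝ) < 4 * ((m : ℝ) + 1) ^ 2 := by positivity
    have hz' : nsq z < 1 / (4 * ((m : ℝ) + 1) ^ 2) := hz
    rw [lt_div_iff₀ h3] at hz'
    linarith
  unfold psi
  rw [((hCUT n).2.2.1 _).2.2.1 h2, sub_self]

theorem finrank_V : Module.finrank ℝ (V n) = 2 * n := by
  rw [Module.finrank_pi_fintype]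
  simp [Complex.finrank_real_complex, mul_comm]

theorem psi_l1 (hn : 1 ≤ n) (k : Fin n) :
    Tendsto (fun m => ∫ z, ‖dr (psi n m) z (ek k)‖) atTop (𝓝 0) := by
  have h1 : ∀ m : ℕ, ∫ z, ‖dr (psi n m) z (ek k)‖ =
      ((m : ℝ) + 1) * ((((m : ℝ) + 1) ^ (2 * n))⁻¹ * ∫ z, ‖dr (chi (n := n)) z (ek k)‖) := by
    intro m
    have hm : (0 : ℝ) < (m : ℝ) + 1 := by positivity
    have h2 : ∀ z : V n, ‖dr (psi n m) z (ek k)‖ =
        ((m : ℝ) + 1) * ‖dr chi (((m : ℝ) + 1) • z) (ek k)‖ := by
      intro z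
      rw [psi_dr, norm_mul, norm_neg, Complex.norm_real, Real.norm_of_nonneg hm.le]
    simp only [h2]
    rw [integral_const_mul, Measure.integral_comp_smul volume
      (fun z : V n => ‖dr chi z (ek k)‖), finrank_V, smul_eq_mul, abs_of_pos (by positivity)]
  have h2 : Tendsto (fun m : ℕ => (1 / ((m : ℝ) + 1)) * ∫ z, ‖dr (chi (n := n)) z (ek k)‖)
      atTop (𝓝 0) := by
    have := (tendsto_one_div_add_atTop_nhds_zero_nat (𝕜 := ℝ)).mul_const
      (∫ z, ‖dr (chi (n := n)) z (ek k)‖)
    rwa [zero_mul] at this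
  refine tendsto_of_tendsto_of_tendsto_of_le_of_le tendsto_const_nhds h2
    (fun m => integral_nonneg fun z => norm_nonneg _) fun m => ?_
  have hI : 0 ≤ ∫ z, ‖dr (chi (n := n)) z (ek k)‖ := integral_nonneg fun z => norm_nonneg _
  have hm : (1 : ℝ) ≤ (m : ℝ) + 1 := by
    have : (0 : ℝ) ≤ m := Nat.cast_nonneg m
    linarith
  show ∫ z, ‖dr (psi n m) z (ek k)‖ ≤ _
  rw [h1 m, ← mul_assoc]
  refine mul_le_mul_of_nonneg_right ?_ hI
  have h3 : ((m : ℝ) + 1) ^ 2 ≤ ((m : ℝ) + 1) ^ (2 * n) := pow_le_pow_right₀ hm (by omega)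
  have h4 : (0 : ℝ) < (m : ℝ) + 1 := by linarith
  calc ((m : ℝ) + 1) * (((m : ℝ) + 1) ^ (2 * n))⁻¹
      ≤ ((m : ℝ) + 1) * (((m : ℝ) + 1) ^ 2)⁻¹ := by
        refine mul_le_mul_of_nonneg_left ?_ h4.le
        exact inv_anti₀ (by positivity) h3
    _ = 1 / ((m : ℝ) + 1) := by field_simp

/-- the weak `∂bar` equation across `I` and the origin -/
theorem W1 (hDIV : T_DIV) (hPRD : T_PRD) (hLIN : T_LIN) (hCUT : T_CUT) {X : Type}
    [TopologicalSpace X] {ι : Type} [Fintype ι] {A : Atl n X ι} {f : V n → X} {I : Set (V n)}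
    (hS : Sing A f I) {R : ℝ} (hR : R ≤ 1) {g : V n → ℂ}
    (hg : DifferentiableOn ℂ g (OR n I R)) {C : ℝ}
    (hC0 : 0 ≤ C) (hC : ∀ z ∈ OR n I R, ‖g z‖ ≤ C) {p : V n → ℂ} (hp : ContDiff ℝ ∞ p)
    (hpc : HasCompactSupport p) (hps : tsupport p ⊆ {z | nsq z < R}) (k : Fin n) :
    ∫ z in OR n I R, g z * dzb p z (ek k) = 0 := by
  set O := OR n I R with hO
  have hOo : IsOpen O := OR_open hS.opn R
  have hKc : IsCompact (tsupport p) := hpc
  obtain ⟨M, hM0, hM⟩ := exists_bound hp.continuous hpc
  have hdzbi : IntegrableOn (fun z => dzb p z (ek k)) O := by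
    have h1 : Integrable (fun z => dzb p z (ek k)) := by
      refine (dzb_continuous hp (ek k)).integrable_of_hasCompactSupport ?_
      refine hKc.of_isClosed_subset (isClosed_tsupport _) ?_
      refine closure_minimal ?_ (isClosed_tsupport _)
      intro z hz
      by_contra hne
      exact hz (dzb_support hne _)
    exact h1.integrableOn
  have hc1 := fun m => psi_contDiff (n := n) hCUT m
  have hpi : ∀ j, IntegrableOn (fun z => p z * conj (dr (psi n j) z (ek k))) O := by
    intro j
    have h1 : Integrable (fun z => p z * conj (dr (psi n j) z (ek k))) := by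
      refine Continuous.integrable_of_hasCompactSupport ?_ hpc.mul_right
      exact hp.continuous.mul (Complex.continuous_conj.comp (dr_continuous (hc1 j) _))
    exact h1.integrableOn
  have hcd : ∀ j, IntegrableOn (fun z => (psi n j z : ℂ) * dzb p z (ek k)) O := by
    intro j
    refine hdzbi.norm.mono' ?_ (Eventually.of_forall fun z => ?_)
    · exact ((Complex.continuous_ofReal.comp (hc1 j).continuous).mul
        (dzb_continuous hp (ek k))).aestronglyMeasurable
    · rw [norm_mul, Complex.norm_real, Real.norm_of_nonneg (psi_bounds hCUT j z).1]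
      exact mul_le_of_le_one_left (norm_nonneg _) (psi_bounds hCUT j z).2
  have key : ∀ j, ∫ z in O, g z * ((psi n j z : ℂ) * dzb p z (ek k)) =
      - ∫ z in O, g z * (p z * conj (dr (psi n j) z (ek k))) := by
    intro j
    have h1 : ∫ z in O, g z * dzb (fun x => (psi n j x : ℂ) * p x) z (ek k) = 0 := by
      refine W0 hDIV hPRD hLIN hS hg hC (contDiff_ofReal_mul (hc1 j) hp) hpc.mul_left ?_ k
      intro z hz
      have hzK : z ∈ tsupport p := tsupport_mul_subset_right hz
      have hzR : nsq z < R := hps hzK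
      refine ⟨⟨?_, lt_of_lt_of_le hzR hR⟩, hzR⟩
      rcases (nsq_nonneg z).lt_or_eq with h | h
      · exact h
      · exfalso
        have hz0 : z = 0 := by
          funext i
          have h3 : ‖z i‖ ^ 2 ≤ nsq z :=
            Finset.single_le_sum (f := fun i => ‖z i‖ ^ 2) (fun i _ => sq_nonneg _)
              (Finset.mem_univ i)
          rw [← h] at h3
          have h4 : ‖z i‖ = 0 := by
            have := sq_nonneg ‖z i‖
            exact pow_eq_zero_iff (two_ne_zero) |>.1 (le_antisymm h3 this)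
          simpa using h4
        have h2 := psi_zero (n := n) hCUT j
        rw [← hz0] at h2
        have h3 : z ∉ tsupport (fun x => (psi n j x : ℂ) * p x) := by
          rw [notMem_tsupport_iff_eventuallyEq]
          filter_upwards [h2] with x hx
          simp [hx]
        exact h3 hz
    have h2 : ∀ z, g z * dzb (fun x => (psi n j x : ℂ) * p x) z (ek k) =
        g z * ((psi n j z : ℂ) * dzb p z (ek k)) +
          g z * (p z * conj (dr (psi n j) z (ek k))) := by
      intro z
      rw [dzb_ofReal_mul hPRD hLIN ((hc1 j).differentiable (by simp) z)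
        (hp.differentiable (by simp) z), mul_add]
    simp only [h2] at h1
    rw [integral_add (bdd_integrable hOo hg.continuousOn hC (hcd j))
      (bdd_integrable hOo hg.continuousOn hC (hpi j))] at h1
    exact eq_neg_of_add_eq_zero_left h1
  have lim1 : Tendsto (fun j => ∫ z in O, g z * ((psi n j z : ℂ) * dzb p z (ek k))) atTop
      (𝓝 (∫ z in O, g z * dzb p z (ek k))) := by
    refine tendsto_integral_of_dominated_convergence (fun z => ‖g z * dzb p z (ek k)‖)
      (fun j => (bdd_integrable hOo hg.continuousOn hC (hcd j)).aestronglyMeasurable)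
      (bdd_integrable hOo hg.continuousOn hC hdzbi).norm
      (fun j => Eventually.of_forall fun z => ?_) ?_
    · rw [norm_mul, norm_mul, norm_mul, Complex.norm_real,
        Real.norm_of_nonneg (psi_bounds hCUT j z).1]
      exact mul_le_mul_of_nonneg_left
        (mul_le_of_le_one_left (norm_nonneg _) (psi_bounds hCUT j z).2) (norm_nonneg _)
    · refine (ae_restrict_iff' hOo.measurableSet).2 (Eventually.of_forall fun z hz => ?_)
      have h1 := psi_tendsto hCUT hz.1.1.1
      have h2 : Tendsto (fun j => ((psi n j z : ℝ) : ℂ)) atTop (𝓝 ((1 : ℝ) : ℂ)) :=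
        (Complex.continuous_ofReal.tendsto 1).comp h1
      have h3 := (h2.mul_const (dzb p z (ek k))).const_mul (g z)
      rw [Complex.ofReal_one, one_mul] at h3
      exact h3
  have hdri : ∀ j, Integrable (fun z => ‖dr (psi n j) z (ek k)‖) := by
    intro j
    have hch : HasCompactSupport (fun z => dr (psi n j) z (ek k)) := by
      have h1 : HasCompactSupport (fun z : V n => chi (((j : ℝ) + 1) • z)) :=
        (hCUT n).2.1.comp_smul (by positivity)
      refine (IsCompact.of_isClosed_subset h1 (isClosed_tsupport _) ?_)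
      refine closure_minimal ?_ (isClosed_tsupport _)
      intro z hz
      by_contra hne
      refine hz ?_
      have h2 : fderiv ℝ (fun z : V n => chi (((j : ℝ) + 1) • z)) z = 0 := by
        by_contra hne2
        exact hne (support_fderiv_subset ℝ hne2)
      have h3 : fderiv ℝ (psi n j) z = 0 := by
        unfold psi
        rw [fderiv_const_sub, h2, neg_zero]
      show dr (psi n j) z (ek k) = 0
      unfold dr
      rw [h3]
      simp
    exact ((dr_continuous (hc1 j) (ek k)).integrable_of_hasCompactSupport hch).norm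
  have lim2 : Tendsto (fun j => ∫ z in O, g z * (p z * conj (dr (psi n j) z (ek k)))) atTop
      (𝓝 0) := by
    refine squeeze_zero_norm (fun j => ?_)
      (by simpa using (psi_l1 (n := n) (by have := hS.two; omega) k).const_mul (C * M))
    calc ‖∫ z in O, g z * (p z * conj (dr (psi n j) z (ek k)))‖
        ≤ ∫ z in O, ‖g z * (p z * conj (dr (psi n j) z (ek k)))‖ :=
          norm_integral_le_integral_norm _
      _ ≤ ∫ z in O, C * M * ‖dr (psi n j) z (ek k)‖ := by
          refine setIntegral_mono_on ?_ ?_ hOo.measurableSet ?_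
          · exact (bdd_integrable hOo hg.continuousOn hC (hpi j)).norm
          · exact ((hdri j).const_mul _).integrableOn
          · intro z hz
            rw [norm_mul, norm_mul, RCLike.norm_conj, mul_assoc]
            exact mul_le_mul (hC z hz) (mul_le_mul_of_nonneg_right (hM z) (norm_nonneg _))
              (mul_nonneg (norm_nonneg _) (norm_nonneg _)) hC0
      _ ≤ ∫ z, C * M * ‖dr (psi n j) z (ek k)‖ := by
          refine setIntegral_le_integral ((hdri j).const_mul _) (Eventually.of_forall fun z =>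
            mul_nonneg (mul_nonneg hC0 hM0) (norm_nonneg _))
      _ = C * M * ∫ z, ‖dr (psi n j) z (ek k)‖ := integral_const_mul _ _
  have h6 : Tendsto (fun j => ∫ z in O, g z * ((psi n j z : ℂ) * dzb p z (ek k))) atTop
      (𝓝 0) := by
    simp only [key]
    simpa using lim2.neg
  exact tendsto_nhds_unique lim1 h6

theorem compl_null {I : Set (V n)} (hn : 2 ≤ n) (hI : volume (Dp n ∩ I) = 0) {R : ℝ}
    (hR : R ≤ 1) : volume ({z : V n | nsq z < R} \ OR n I R) = 0 := by
  have : Nonempty (Fin n) := ⟨⟨0, by omega⟩⟩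
  have h1 : {z : V n | nsq z < R} \ OR n I R ⊆ {0} ∪ (Dp n ∩ I) := by
    intro z hz
    by_cases hz0 : z = 0
    · exact Or.inl hz0
    · right
      have hpos : 0 < nsq z := by
        rcases (nsq_nonneg z).lt_or_eq with h | h
        · exact h
        · exfalso
          refine hz0 ?_
          funext i
          have h3 : ‖z i‖ ^ 2 ≤ nsq z :=
            Finset.single_le_sum (f := fun i => ‖z i‖ ^ 2) (fun i _ => sq_nonneg _)
              (Finset.mem_univ i)
          rw [← h] at h3
          have h4 : ‖z i‖ = 0 := by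
            have := sq_nonneg ‖z i‖
            exact pow_eq_zero_iff (two_ne_zero) |>.1 (le_antisymm h3 this)
          simpa using h4
      have hD : z ∈ Dp n := ⟨hpos, lt_of_lt_of_le hz.1 hR⟩
      refine ⟨hD, ?_⟩
      by_contra hzI
      exact hz.2 ⟨⟨hD, hzI⟩, hz.1⟩
  refine measure_mono_null h1 (measure_union_null ?_ hI)
  exact measure_singleton 0

theorem restrict_inter {I : Set (V n)} (hn : 2 ≤ n) (hI : volume (Dp n ∩ I) = 0) {R : ℝ}
    (hR : R ≤ 1) {S : Set (V n)} (hS : S ⊆ {z : V n | nsq z < R}) :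
    volume.restrict S = volume.restrict (S ∩ OR n I R) := by
  refine Measure.restrict_congr_set ?_
  have h1 : volume (S \ OR n I R) = 0 :=
    measure_mono_null (sdiff_subset_sdiff_left hS) (compl_null hn hI hR)
  rw [ae_eq_set]
  constructor
  · rw [sdiff_self_inter]
    exact h1
  · rw [sdiff_eq_empty.2 inter_subset_left]
    exact measure_empty

/-- bounded holomorphic functions extend -/
theorem part2 (hDIV : T_DIV) (hPRD : T_PRD) (hLIN : T_LIN) (hCUT : T_CUT) (hWHL : T_WHL)
    {X : Type} [TopologicalSpace X] {ι : Type} [Fintype ι] {A : Atl n X ι} {f : V n → X}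
    {I : Set (V n)} (hS : Sing A f I) {R : ℝ} (hR : R ≤ 1) {g : V n → ℂ}
    (hg : DifferentiableOn ℂ g (OR n I R)) {C : ℝ} (hC0 : 0 ≤ C)
    (hC : ∀ z ∈ OR n I R, ‖g z‖ ≤ C) :
    ∃ G : V n → ℂ, DifferentiableOn ℂ G {z | nsq z < R} ∧ ∀ z ∈ OR n I R, G z = g z := by
  set O := OR n I R with hO
  have hOo : IsOpen O := OR_open hS.opn R
  set B : Set (V n) := {z | nsq z < R} with hB
  have hBo : IsOpen B := isOpen_nsq R
  have hres := fun {S : Set (V n)} (h : S ⊆ B) => restrict_inter hS.two hS.null hR h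
  have hloc : ∀ z ∈ B, ∃ r : ℝ, 0 < r ∧ Metric.ball z r ⊆ B ∧ ∃ G : V n → ℂ,
      DifferentiableOn ℂ G (Metric.ball z r) ∧
      ∀ᵐ y ∂(volume.restrict (Metric.ball z r)), g y = G y := by
    intro z hz
    obtain ⟨r, hr, hrB⟩ := Metric.isOpen_iff.1 hBo z hz
    refine ⟨r, hr, hrB, ?_⟩
    refine (hWHL n z r g hr ?_ ?_).1
    · unfold IntegrableOn
      rw [hres hrB]
      have h2 : volume (Metric.ball z r ∩ O) < ⊤ :=
        (measure_mono inter_subset_left).trans_lt measure_ball_lt_top
      have h3 : IntegrableOn (fun _ : V n => C) (Metric.ball z r ∩ O) :=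
        integrableOn_const h2.ne
      refine Integrable.mono' h3 ?_ ?_
      · exact (hg.continuousOn.mono inter_subset_right).aestronglyMeasurable
          (Metric.isOpen_ball.inter hOo).measurableSet
      · exact (ae_restrict_iff' (Metric.isOpen_ball.inter hOo).measurableSet).2
          (Eventually.of_forall fun y hy => hC y hy.2)
    · intro p hp hpc hps k
      rw [hres hrB]
      rw [← W1 hDIV hPRD hLIN hCUT hS hR hg hC0 hC hp hpc (hps.trans hrB) k]
      symm
      refine setIntegral_eq_of_subset_of_forall_sdiff_eq_zero hOo.measurableSet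
        inter_subset_right ?_
      intro y hy
      rw [dzb_support (fun h => hy.2 ⟨hps h, hy.1⟩), mul_zero]
  choose! r hr hrB Gz hGd hGa using hloc
  have hEq : ∀ z ∈ B, ∀ y ∈ Metric.ball z (r z) ∩ O, Gz z y = g y := by
    intro z hz
    have h1 : Gz z =ᵐ[volume.restrict (Metric.ball z (r z) ∩ O)] g := by
      have h2 := ae_restrict_of_ae_restrict_of_subset
        (inter_subset_left (s := Metric.ball z (r z)) (t := O)) (hGa z hz)
      filter_upwards [h2] with y hy
      exact hy.symm
    exact Measure.eqOn_open_of_ae_eq h1 (Metric.isOpen_ball.inter hOo)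
      ((hGd z hz).continuousOn.mono inter_subset_left) (hg.continuousOn.mono inter_subset_right)
  have hEq2 : ∀ z ∈ B, ∀ z' ∈ B, ∀ y ∈ Metric.ball z (r z) ∩ Metric.ball z' (r z'),
      Gz z y = Gz z' y := by
    intro z hz z' hz'
    have h1 : Gz z =ᵐ[volume.restrict (Metric.ball z (r z) ∩ Metric.ball z' (r z'))] Gz z' := by
      have h2 := ae_restrict_of_ae_restrict_of_subset
        (inter_subset_left (s := Metric.ball z (r z)) (t := Metric.ball z' (r z'))) (hGa z hz)
      have h3 := ae_restrict_of_ae_restrict_of_subset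
        (inter_subset_right (s := Metric.ball z (r z)) (t := Metric.ball z' (r z'))) (hGa z' hz')
      filter_upwards [h2, h3] with y hy hy'
      rw [← hy, ← hy']
    exact Measure.eqOn_open_of_ae_eq h1 (Metric.isOpen_ball.inter Metric.isOpen_ball)
      ((hGd z hz).continuousOn.mono inter_subset_left)
      ((hGd z' hz').continuousOn.mono inter_subset_right)
  refine ⟨fun z => Gz z z, ?_, ?_⟩
  · intro z hz
    have h1 : (fun y => Gz y y) =ᶠ[𝓝 z] Gz z := by
      filter_upwards [Metric.ball_mem_nhds z (hr z hz)] with y hy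
      have hyB : y ∈ B := hrB z hz hy
      exact hEq2 y hyB z hz y ⟨Metric.mem_ball_self (hr y hyB), hy⟩
    have h2 : DifferentiableAt ℂ (Gz z) z :=
      (hGd z hz).differentiableAt (Metric.ball_mem_nhds z (hr z hz))
    exact (h1.differentiableAt_iff.2 h2).differentiableWithinAt
  · intro z hz
    exact hEq z hz.2 z ⟨Metric.mem_ball_self (hr z hz.2), hz⟩

theorem cnn_proof (hDIV : T_DIV) (hPRD : T_PRD) (hLIN : T_LIN) (hCUT : T_CUT)
    (hWHL : T_WHL) : T_CNN := by
  intro n X _ _ ι _ A f I hS R hR0 hR1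
  have hP2 : ∀ g : V n → ℂ, DifferentiableOn ℂ g ((Dp n \ I) ∩ {z | nsq z < R}) →
    (∃ C : ℝ, ∀ z ∈ (Dp n \ I) ∩ {z | nsq z < R}, ‖g z‖ ≤ C) →
    ∃ G : V n → ℂ, DifferentiableOn ℂ G {z | nsq z < R} ∧
      ∀ z ∈ (Dp n \ I) ∩ {z | nsq z < R}, G z = g z := by
    intro g hg hC
    obtain ⟨C, hC⟩ := hC
    refine part2 hDIV hPRD hLIN hCUT hWHL hS hR1 hg (le_max_right C 0) ?_
    intro z hz
    exact (hC z hz).trans (le_max_left _ _)
  refine ⟨?_, hP2⟩
  classical
  intro Y g hg z0 hz0 z1 hz1 hzR0 hzR1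
  set O := OR n I R with hO
  have hOo : IsOpen O := OR_open hS.opn R
  set B : Set (V n) := {z | nsq z < R} with hB
  have hBo : IsOpen B := isOpen_nsq R
  have hOB : O ⊆ B := inter_subset_right
  have hz0O : z0 ∈ O := ⟨hz0, hzR0⟩
  have hz1O : z1 ∈ O := ⟨hz1, hzR1⟩
  set u : V n → ℂ := fun z => if g z = g z0 then 1 else 0 with hu
  have hud : DifferentiableOn ℂ u O := by
    intro z hz
    have h1 : u =ᶠ[𝓝 z] fun _ => u z := by
      filter_upwards [hg z hz.1 hz.2] with y hy
      simp only [hu, hy]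
    exact (h1.differentiableAt_iff.2 (differentiableAt_const _)).differentiableWithinAt
  obtain ⟨G, hG1, hG2⟩ := hP2 u hud ⟨1, fun z _ => by
    simp only [hu]
    split_ifs <;> simp⟩
  have hsq : EqOn (fun z => G z * G z) G B := by
    have h1 : (fun z => G z * G z) =ᵐ[volume.restrict B] G := by
      rw [restrict_inter hS.two hS.null hR1 (subset_refl B)]
      refine (ae_restrict_iff' (hBo.inter hOo).measurableSet).2 (Eventually.of_forall ?_)
      intro z hz
      have h2 : G z = u z := hG2 z hz.2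
      simp only [h2, hu]
      split_ifs <;> simp
    exact Measure.eqOn_open_of_ae_eq h1 hBo (hG1.continuousOn.mul hG1.continuousOn)
      hG1.continuousOn
  have hmaps : MapsTo G B ({0, 1} : Set ℂ) := by
    intro z hz
    have h1 : G z * G z = G z := hsq hz
    have h2 : G z * (G z - 1) = 0 := by
      rw [mul_sub, h1, mul_one, sub_self]
    rcases mul_eq_zero.1 h2 with h | h
    · exact Or.inl h
    · exact Or.inr (sub_eq_zero.1 h)
  have hstar : StarConvex ℝ (0 : V n) B := by
    rw [starConvex_zero_iff]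
    intro z hz t ht0 ht1
    show nsq (t • z) < R
    rw [nsq_smul]
    have h1 : t ^ 2 ≤ 1 := pow_le_one₀ ht0 ht1
    calc t ^ 2 * nsq z ≤ nsq z := mul_le_of_le_one_left (nsq_nonneg z) h1
      _ < R := hz
  have h0B : (0 : V n) ∈ B := by
    show nsq (0 : V n) < R
    simpa [nsq] using hR0
  have hconn : IsPreconnected B := (hstar.isPathConnected h0B).isConnected.isPreconnected
  have hfin : IsDiscrete ({0, 1} : Set ℂ) := by
    exact (Set.toFinite _).isDiscrete
  have h1 := hconn.constant_of_mapsTo hfin hG1.continuousOn hmaps (hOB hz1O) (hOB hz0O)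
  rw [hG2 z1 hz1O, hG2 z0 hz0O] at h1
  simp only [hu, if_true] at h1
  by_contra hne
  rw [if_neg (fun h => hne h.symm)] at h1
  exact zero_ne_one h1

end Pool.Agent.H2.VG
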