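import Pool.Agent.H95.VG.Targets1
import Pool.Agent.H95.VG.Targets3

/-!
# Module CNN, part 1: bounded holomorphic functions are weakly holomorphic across `I`
-/

open MeasureTheory Set Filter Topology
open scoped ENNReal NNReal ContDiff ComplexConjugate

namespace Pool.Agent.H2.VG

open Pool.Agent.H95.VG

variable {n : ℕ}

theorem mix_inl (Y : V n → V n) : mix (fun i => Sum.inl i) Y = fun z => z := by
  funext z i
  simp [mix]

theorem jac_id (z : V n) : jac (fun z : V n => z) z = 1 := by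
  ext i j
  simp only [jac, Matrix.of_apply]
  rw [fderiv_fun_id]
  simp only [ContinuousLinearMap.coe_id', id_eq, ek]
  rw [Pi.single_apply, Matrix.one_apply]

theorem cf_inl (Y : V n → V n) (k : Fin n) (z : V n) :
    cf (mix (fun i => Sum.inl i) Y) k z = ek k := by
  rw [mix_inl]
  funext i
  unfold cf
  rw [jac_id, Matrix.adjugate_one, Matrix.one_apply, ek, Pi.single_apply]

theorem ge_nonneg (g : V n → ℝ) (z v : V n) : 0 ≤ ge g z v := sq_nonneg _

theorem energy {X : Type} [TopologicalSpace X] {ι : Type} [Fintype ι] (A : Atl n X ι) (f : V n → X)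
    (I K : Set (V n)) (c : ℕ → V n → ℝ)
    (hc : ∀ a Φ k, Tendsto (fun j => ∫⁻ z in (K \ I) ∩ Cb A f a 2,
      ENNReal.ofReal (ge (c j) z (cf (mix Φ (FF A f a)) k z))) atTop (𝓝 0)) (k : Fin n) :
    Tendsto (fun j => ∫⁻ z in K \ I, ENNReal.ofReal (ge (c j) z (ek k))) atTop (𝓝 0) := by
  have h1 : Tendsto (fun j => ∑ a, ∫⁻ z in (K \ I) ∩ Cb A f a 2,
      ENNReal.ofReal (ge (c j) z (ek k))) atTop (𝓝 0) := by
    have h2 := tendsto_finsetSum (Finset.univ : Finset ι)
      fun a _ => hc a (fun i => Sum.inl i) k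
    simp only [cf_inl, Finset.sum_const_zero] at h2
    exact h2
  refine tendsto_of_tendsto_of_tendsto_of_le_of_le tendsto_const_nhds h1 (fun j => bot_le)
    fun j => ?_
  have hsub : K \ I ⊆ ⋃ a, (K \ I) ∩ Cb A f a 2 := by
    intro z hz
    obtain ⟨a, ha1, ha2⟩ := A.cover (f z)
    refine mem_iUnion.2 ⟨a, hz, ha1, ?_⟩
    exact Metric.closedBall_subset_closedBall (by norm_num) (Metric.ball_subset_closedBall ha2)
  calc ∫⁻ z in K \ I, ENNReal.ofReal (ge (c j) z (ek k))
      ≤ ∫⁻ z in ⋃ a, (K \ I) ∩ Cb A f a 2, ENNReal.ofReal (ge (c j) z (ek k)) :=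
        lintegral_mono_set hsub
    _ ≤ ∑' a, ∫⁻ z in (K \ I) ∩ Cb A f a 2, ENNReal.ofReal (ge (c j) z (ek k)) :=
        lintegral_iUnion_le _ _
    _ = ∑ a, ∫⁻ z in (K \ I) ∩ Cb A f a 2, ENNReal.ofReal (ge (c j) z (ek k)) :=
        tsum_fintype _

theorem dr_continuous {g : V n → ℝ} (hg : ContDiff ℝ ∞ g) (v : V n) :
    Continuous fun z => dr g z v := by
  have h1 : Continuous (fderiv ℝ g) := hg.continuous_fderiv (by simp)
  unfold dr
  fun_prop

theorem dzb_continuous {g : V n → ℂ} (hg : ContDiff ℝ ∞ g) (v : V n) :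
    Continuous fun z => dzb g z v := by
  have h1 : Continuous (fderiv ℝ g) := hg.continuous_fderiv (by simp)
  unfold dzb
  fun_prop

theorem dzb_support {g : V n → ℂ} {z : V n} (hz : z ∉ tsupport g) (v : V n) : dzb g z v = 0 := by
  have h1 : fderiv ℝ g z = 0 := by
    by_contra hne
    exact hz (support_fderiv_subset ℝ (f := g) hne)
  unfold dzb
  rw [h1]
  simp

/-- the mean of the gradient of the cutoffs tends to zero -/
theorem l1_bound {K I : Set (V n)} (hK : IsCompact K)
    {c : ℕ → V n → ℝ} (hc : ∀ j, ContDiff ℝ ∞ (c j)) (k : Fin n)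
    (hE : Tendsto (fun j => ∫⁻ z in K \ I, ENNReal.ofReal (ge (c j) z (ek k))) atTop (𝓝 0)) :
    Tendsto (fun j => ∫ z in K \ I, ‖dr (c j) z (ek k)‖) atTop (𝓝 0) := by
  set V0 : ℝ := volume.real (K \ I) with hV0
  have hV : 0 ≤ V0 := measureReal_nonneg
  have hfin : volume (K \ I) < ⊤ := (measure_mono sdiff_subset).trans_lt hK.measure_lt_top
  have hint1 : ∀ j, IntegrableOn (fun z => ‖dr (c j) z (ek k)‖) (K \ I) := fun j =>
    ((dr_continuous (hc j) _).norm.continuousOn.integrableOn_compact hK).mono_set sdiff_subset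
  have hint2 : ∀ j, IntegrableOn (fun z => ge (c j) z (ek k)) (K \ I) := fun j =>
    (((dr_continuous (hc j) _).norm.pow 2).continuousOn.integrableOn_compact hK).mono_set
      sdiff_subset
  have hcI : ∀ δ : ℝ, IntegrableOn (fun _ : V n => δ) (K \ I) := fun δ =>
    integrableOn_const hfin.ne
  set e : ℕ → ℝ := fun j => ∫ z in K \ I, ge (c j) z (ek k) with he
  have he0 : ∀ j, 0 ≤ e j := fun j => integral_nonneg fun z => ge_nonneg _ _ _
  have hereal : Tendsto e atTop (𝓝 0) := by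
    have h1 : ∀ j, e j = (∫⁻ z in K \ I, ENNReal.ofReal (ge (c j) z (ek k))).toReal := by
      intro j
      rw [he]
      exact integral_eq_lintegral_of_nonneg_ae (Eventually.of_forall fun z => ge_nonneg _ _ _)
        (hint2 j).aestronglyMeasurable
    have h2 : e = fun j => (∫⁻ z in K \ I, ENNReal.ofReal (ge (c j) z (ek k))).toReal :=
      funext h1
    rw [h2, ← ENNReal.toReal_zero]
    exact (ENNReal.tendsto_toReal ENNReal.zero_ne_top).comp hE
  have hδ : Tendsto (fun j : ℕ => (V0 + 1) * (√(e j) + 1 / ((j : ℝ) + 1))) atTop (𝓝 0) := by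
    have h1 : Tendsto (fun j => √(e j)) atTop (𝓝 0) := by
      have := (Real.continuous_sqrt.tendsto 0).comp hereal
      rwa [Real.sqrt_zero] at this
    have h2 := (h1.add (tendsto_one_div_add_atTop_nhds_zero_nat (𝕜 := ℝ))).const_mul (V0 + 1)
    rw [add_zero, mul_zero] at h2
    exact h2
  refine tendsto_of_tendsto_of_tendsto_of_le_of_le tendsto_const_nhds hδ
    (fun j => integral_nonneg fun z => norm_nonneg _) fun j => ?_
  set δ : ℝ := √(e j) + 1 / ((j : ℝ) + 1) with hδd
  have hδ0 : 0 < δ := by positivity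
  have hδe : e j ≤ δ ^ 2 := by
    have h1 : √(e j) ≤ δ := by
      have : (0 : ℝ) < 1 / ((j : ℝ) + 1) := by positivity
      linarith
    calc e j = √(e j) ^ 2 := (Real.sq_sqrt (he0 j)).symm
      _ ≤ δ ^ 2 := pow_le_pow_left₀ (Real.sqrt_nonneg _) h1 2
  have hpt : ∀ z, ‖dr (c j) z (ek k)‖ ≤ δ + 1 / δ * ge (c j) z (ek k) := by
    intro z
    have h1 : ge (c j) z (ek k) = ‖dr (c j) z (ek k)‖ ^ 2 := rfl
    rw [h1]
    set x := ‖dr (c j) z (ek k)‖ with hx
    have hx0 : 0 ≤ x := norm_nonneg _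
    have h2 : 0 ≤ (x - δ) ^ 2 := sq_nonneg _
    have h3 : x * δ ≤ δ ^ 2 + x ^ 2 := by nlinarith
    calc x = x * δ / δ := by field_simp
      _ ≤ (δ ^ 2 + x ^ 2) / δ := div_le_div_of_nonneg_right h3 hδ0.le
      _ = δ + 1 / δ * x ^ 2 := by field_simp
  calc ∫ z in K \ I, ‖dr (c j) z (ek k)‖
      ≤ ∫ z in K \ I, (δ + 1 / δ * ge (c j) z (ek k)) := by
        refine integral_mono (hint1 j) ?_ hpt
        exact (hcI δ).add ((hint2 j).const_mul _)
    _ = δ * V0 + 1 / δ * e j := by
        rw [integral_add (hcI δ) ((hint2 j).const_mul _),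
          integral_const_mul, setIntegral_const, smul_eq_mul, mul_comm V0]
    _ ≤ δ * V0 + 1 / δ * δ ^ 2 := by
        have : 1 / δ * e j ≤ 1 / δ * δ ^ 2 := mul_le_mul_of_nonneg_left hδe (by positivity)
        linarith
    _ = (V0 + 1) * δ := by field_simp

theorem bdd_integrable {O : Set (V n)} (hO : IsOpen O) {g : V n → ℂ} (hg : ContinuousOn g O)
    {C : ℝ} (hC : ∀ z ∈ O, ‖g z‖ ≤ C) {q : V n → ℂ} (hq : IntegrableOn q O) :
    IntegrableOn (fun z => g z * q z) O := by
  refine (hq.norm.const_mul C).mono' ((hg.aestronglyMeasurable hO.measurableSet).mul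
    hq.aestronglyMeasurable) ?_
  refine (ae_restrict_iff' hO.measurableSet).2 (Eventually.of_forall fun z hz => ?_)
  rw [norm_mul]
  exact mul_le_mul_of_nonneg_right (hC z hz) (norm_nonneg _)

end Pool.Agent.H2.VG
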