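import Pool.Agent.H2.VG.CNNa

/-!
# Module CNN, part 2: the weak `∂bar` equation across `I` and across the origin
-/

open MeasureTheory Set Filter Topology
open scoped ENNReal NNReal ContDiff ComplexConjugate

namespace Pool.Agent.H2.VG

open Pool.Agent.H95.VG

variable {n : ℕ}

/-- the domain -/
def OR (n : ℕ) (I : Set (V n)) (R : ℝ) : Set (V n) := (Dp n \ I) ∩ {z | nsq z < R}

theorem continuous_nsq : Continuous (nsq (n := n)) := by
  unfold nsq
  fun_prop

theorem isOpen_nsq (R : ℝ) : IsOpen {z : V n | nsq z < R} :=
  isOpen_lt continuous_nsq continuous_const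

theorem OR_open {I : Set (V n)} (hI : IsOpen (Dp n \ I)) (R : ℝ) : IsOpen (OR n I R) :=
  hI.inter (isOpen_nsq R)

theorem ek_div_zero (k : Fin n) (z : V n) :
    ∑ i, fderiv ℂ (fun _ : V n => (ek k : V n) i) z (ek i) = 0 := by
  refine Finset.sum_eq_zero fun i _ => ?_
  simp

theorem dzb_ofReal_mul (hPRD : T_PRD) (hLIN : T_LIN) {c : V n → ℝ} {p : V n → ℂ} {z : V n}
    (hc : DifferentiableAt ℝ c z) (hp : DifferentiableAt ℝ p z) (v : V n) :
    dzb (fun x => (c x : ℂ) * p x) z v = c z * dzb p z v + p z * conj (dr c z v) := by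
  have h1 : DifferentiableAt ℝ (fun x => (c x : ℂ)) z :=
    Complex.ofRealCLM.differentiableAt.comp z hc
  rw [((hPRD n z v).1 _ _ h1 hp).2, ((hLIN n z).2.2.2.1 c v hc).2]

theorem contDiff_ofReal_mul {c : V n → ℝ} {p : V n → ℂ} (hc : ContDiff ℝ ∞ c)
    (hp : ContDiff ℝ ∞ p) : ContDiff ℝ ∞ fun x => (c x : ℂ) * p x :=
  (Complex.ofRealCLM.contDiff.comp hc).mul hp

theorem exists_bound {p : V n → ℂ} (hp : Continuous p) (hpc : HasCompactSupport p) :
    ∃ M : ℝ, 0 ≤ M ∧ ∀ z, ‖p z‖ ≤ M := by
  obtain ⟨M, hM⟩ := hpc.exists_bound_of_continuous hp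
  exact ⟨M, (norm_nonneg _).trans (hM 0), hM⟩

/-- the weak `∂bar` equation across `I` -/
theorem W0 (hDIV : T_DIV) (hPRD : T_PRD) (hLIN : T_LIN) {X : Type} [TopologicalSpace X]
    {ι : Type} [Fintype ι] {A : Atl n X ι} {f : V n → X} {I : Set (V n)} (hS : Sing A f I)
    {R : ℝ} {g : V n → ℂ} (hg : DifferentiableOn ℂ g (OR n I R)) {C : ℝ}
    (hC : ∀ z ∈ OR n I R, ‖g z‖ ≤ C) {p : V n → ℂ} (hp : ContDiff ℝ ∞ p)
    (hpc : HasCompactSupport p) (hps : tsupport p ⊆ Dp n ∩ {z | nsq z < R}) (k : Fin n) :
    ∫ z in OR n I R, g z * dzb p z (ek k) = 0 := by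
  set O := OR n I R with hO
  have hOo : IsOpen O := OR_open hS.opn R
  have hKc : IsCompact (tsupport p) := hpc
  have hKD : tsupport p ⊆ Dp n := fun z hz => (hps hz).1
  obtain ⟨c, hc1, hc2, hc3, hc4, hc5⟩ := hS.s2 (tsupport p) hKD hKc
  have hE := energy A f I (tsupport p) c hc5 k
  have hL1 := l1_bound hKc hc1 k hE
  obtain ⟨M, hM0, hM⟩ := exists_bound hp.continuous hpc
  -- integrability
  have hdzbi : IntegrableOn (fun z => dzb p z (ek k)) O := by
    have h1 : Integrable (fun z => dzb p z (ek k)) := by
      refine (dzb_continuous hp (ek k)).integrable_of_hasCompactSupport ?_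
      refine hKc.of_isClosed_subset (isClosed_tsupport _) ?_
      refine closure_minimal ?_ (isClosed_tsupport _)
      intro z hz
      by_contra hne
      exact hz (dzb_support hne _)
    exact h1.integrableOn
  have hpi : ∀ j, IntegrableOn (fun z => p z * conj (dr (c j) z (ek k))) O := by
    intro j
    have h1 : Integrable (fun z => p z * conj (dr (c j) z (ek k))) := by
      refine Continuous.integrable_of_hasCompactSupport ?_ hpc.mul_right
      exact hp.continuous.mul (Complex.continuous_conj.comp (dr_continuous (hc1 j) _))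
    exact h1.integrableOn
  have hcd : ∀ j, IntegrableOn (fun z => (c j z : ℂ) * dzb p z (ek k)) O := by
    intro j
    refine hdzbi.norm.mono' ?_ (Eventually.of_forall fun z => ?_)
    · exact ((Complex.continuous_ofReal.comp (hc1 j).continuous).mul
        (dzb_continuous hp (ek k))).aestronglyMeasurable
    · rw [norm_mul, Complex.norm_real, Real.norm_of_nonneg (hc2 j z).1]
      exact mul_le_of_le_one_left (norm_nonneg _) (hc2 j z).2
  -- the identity for each cutoff
  have key : ∀ j, ∫ z in O, g z * ((c j z : ℂ) * dzb p z (ek k)) =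
      - ∫ z in O, g z * (p z * conj (dr (c j) z (ek k))) := by
    intro j
    have h1 : ∫ z in O, g z * dzb (fun x => (c j x : ℂ) * p x) z (ek k) = 0 := by
      refine hDIV n O (fun _ => ek k) g (fun x => (c j x : ℂ) * p x) hOo
        (differentiableOn_const _) (fun z _ => ek_div_zero k z) hg
        ((contDiff_ofReal_mul (hc1 j) hp).of_le (by norm_cast))
        hpc.mul_left ?_
      intro z hz
      have hzK : z ∈ tsupport p := tsupport_mul_subset_right hz
      refine ⟨⟨hKD hzK, fun hzI => ?_⟩, (hps hzK).2⟩
      have h2 := hc3 j z ⟨hzK, hzI⟩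
      have h3 : z ∉ tsupport (fun x => (c j x : ℂ) * p x) := by
        rw [notMem_tsupport_iff_eventuallyEq]
        filter_upwards [h2] with x hx
        simp [hx]
      exact h3 hz
    have h2 : ∀ z, g z * dzb (fun x => (c j x : ℂ) * p x) z (ek k) =
        g z * ((c j z : ℂ) * dzb p z (ek k)) + g z * (p z * conj (dr (c j) z (ek k))) := by
      intro z
      rw [dzb_ofReal_mul hPRD hLIN ((hc1 j).differentiable (by simp) z)
        (hp.differentiable (by simp) z), mul_add]
    simp only [h2] at h1
    rw [integral_add (bdd_integrable hOo hg.continuousOn hC (hcd j))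
      (bdd_integrable hOo hg.continuousOn hC (hpi j))] at h1
    exact eq_neg_of_add_eq_zero_left h1
  -- limits
  have lim1 : Tendsto (fun j => ∫ z in O, g z * ((c j z : ℂ) * dzb p z (ek k))) atTop
      (𝓝 (∫ z in O, g z * dzb p z (ek k))) := by
    refine tendsto_integral_of_dominated_convergence (fun z => ‖g z * dzb p z (ek k)‖)
      (fun j => (bdd_integrable hOo hg.continuousOn hC (hcd j)).aestronglyMeasurable)
      (bdd_integrable hOo hg.continuousOn hC hdzbi).norm
      (fun j => Eventually.of_forall fun z => ?_) ?_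
    · rw [norm_mul, norm_mul, norm_mul, Complex.norm_real, Real.norm_of_nonneg (hc2 j z).1]
      exact mul_le_mul_of_nonneg_left (mul_le_of_le_one_left (norm_nonneg _) (hc2 j z).2)
        (norm_nonneg _)
    · refine (ae_restrict_iff' hOo.measurableSet).2 (Eventually.of_forall fun z hz => ?_)
      by_cases hzK : z ∈ tsupport p
      · have h1 := hc4 z ⟨hzK, hz.1.2⟩
        have h2 : Tendsto (fun j => ((c j z : ℝ) : ℂ)) atTop (𝓝 ((1 : ℝ) : ℂ)) :=
          (Complex.continuous_ofReal.tendsto 1).comp h1
        have h3 := (h2.mul_const (dzb p z (ek k))).const_mul (g z)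
        rw [Complex.ofReal_one, one_mul] at h3
        exact h3
      · simp only [dzb_support hzK, mul_zero]
        exact tendsto_const_nhds
  have lim2 : Tendsto (fun j => ∫ z in O, g z * (p z * conj (dr (c j) z (ek k)))) atTop
      (𝓝 0) := by
    refine squeeze_zero_norm (fun j => ?_) (by simpa using hL1.const_mul (C * M))
    have hC0 : ∀ z ∈ O, 0 ≤ C := fun z hz => (norm_nonneg _).trans (hC z hz)
    rcases O.eq_empty_or_nonempty with hemp | ⟨z0, hz0⟩
    · rw [hemp]
      simp only [Measure.restrict_empty, integral_zero_measure, norm_zero]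
      rcases le_or_gt 0 C with h | h
      · exact mul_nonneg (mul_nonneg h hM0) (integral_nonneg fun z => norm_nonneg _)
      · -- then the set `tsupport p \ I` is empty
        have h5 : tsupport p \ I ⊆ O := fun z hz => ⟨⟨hKD hz.1, hz.2⟩, (hps hz.1).2⟩
        rw [hemp, subset_empty_iff] at h5
        rw [h5]
        simp
    · have hCp := hC0 z0 hz0
      calc ‖∫ z in O, g z * (p z * conj (dr (c j) z (ek k)))‖
          ≤ ∫ z in O, ‖g z * (p z * conj (dr (c j) z (ek k)))‖ := norm_integral_le_integral_norm _
        _ = ∫ z in O ∩ (tsupport p), ‖g z * (p z * conj (dr (c j) z (ek k)))‖ := by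
            rw [← setIntegral_indicator (isClosed_tsupport p).measurableSet]
            refine setIntegral_congr_fun hOo.measurableSet fun z _ => ?_
            by_cases hzK : z ∈ tsupport p
            · rw [indicator_of_mem hzK]
            · rw [indicator_of_notMem hzK, image_eq_zero_of_notMem_tsupport hzK]
              simp
        _ ≤ ∫ z in O ∩ (tsupport p), C * M * ‖dr (c j) z (ek k)‖ := by
            refine setIntegral_mono_on ?_ ?_
              (hOo.measurableSet.inter (isClosed_tsupport p).measurableSet) ?_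
            · exact IntegrableOn.mono_set (t := O)
                (bdd_integrable hOo hg.continuousOn hC (hpi j)).norm inter_subset_left
            · exact IntegrableOn.mono_set (t := tsupport p)
                ((((dr_continuous (hc1 j) (ek k)).norm.continuousOn.integrableOn_compact
                hKc).const_mul _)) inter_subset_right
            · intro z hz
              rw [norm_mul, norm_mul, RCLike.norm_conj, mul_assoc]
              exact mul_le_mul (hC z hz.1) (mul_le_mul_of_nonneg_right (hM z) (norm_nonneg _))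
                (mul_nonneg (norm_nonneg _) (norm_nonneg _)) hCp
        _ ≤ ∫ z in tsupport p \ I, C * M * ‖dr (c j) z (ek k)‖ := by
            refine setIntegral_mono_set ?_ (Eventually.of_forall fun z =>
              mul_nonneg (mul_nonneg hCp hM0) (norm_nonneg _)) ?_
            · exact IntegrableOn.mono_set (t := tsupport p)
                ((((dr_continuous (hc1 j) (ek k)).norm.continuousOn.integrableOn_compact
                hKc).const_mul _)) sdiff_subset
            · exact LE.le.eventuallyLE fun z hz => ⟨hz.2, hz.1.1.2⟩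
        _ = C * M * ∫ z in tsupport p \ I, ‖dr (c j) z (ek k)‖ := integral_const_mul _ _
  have h6 : Tendsto (fun j => ∫ z in O, g z * ((c j z : ℂ) * dzb p z (ek k))) atTop (𝓝 0) := by
    simp only [key]
    simpa using lim2.neg
  exact tendsto_nhds_unique lim1 h6

end Pool.Agent.H2.VG
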