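import Pool.Agent.H95.VG.Targets1
import Pool.Agent.H95.VG.Targets3

/-!
# Module DIC: dichotomy
-/

open MeasureTheory Set Filter Topology
open scoped ENNReal NNReal ContDiff ComplexConjugate

namespace Pool.Agent.H2.VG

open Pool.Agent.H95.VG

theorem prod_differentiableOn {ι E : Type*} [NormedAddCommGroup E] [NormedSpace ℂ E] {O : Set E}
    {g : ι → E → ℂ} (h : ∀ i, DifferentiableOn ℂ (g i) O) (s : Finset ι) :
    DifferentiableOn ℂ (fun x => ∏ i ∈ s, g i x) O := by
  classical
  induction s using Finset.induction_on with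
  | empty =>
    simp only [Finset.prod_empty]
    exact differentiableOn_const _
  | insert a s ha ih =>
    simp only [Finset.prod_insert ha]
    exact (h a).mul ih

theorem det_differentiableOn (hSMO : T_SMO) {n : ℕ} {O : Set (V n)} (hO : IsOpen O)
    {Y : V n → V n} (hY : DifferentiableOn ℂ Y O) :
    DifferentiableOn ℂ (fun x => (jac Y x).det) O := by
  have h1 := (hSMO n (V n) O Y hO hY).2.2
  have h2 : ∀ i j, DifferentiableOn ℂ (fun x => jac Y x i j) O := by
    intro i j
    have h3 := h1 (ek j)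
    exact (differentiableOn_pi.1 h3) i
  simp only [Matrix.det_apply]
  refine DifferentiableOn.fun_sum fun σ _ => ?_
  refine DifferentiableOn.const_smul ?_ _
  exact prod_differentiableOn (g := fun i x => jac Y x (σ i) i) (fun i => h2 (σ i) i) _

theorem dic (hSMO : T_SMO) (hOAO : T_OAO) (hCMP : T_CMP) (hZER : T_ZER) (hCNN : T_CNN) :
    T_DIC := by
  intro n X _ _ _ ι _ A w f I hG hS
  obtain ⟨C, hC, hcmp⟩ := hCMP n X ι A w hG
  have hloc : ∀ z ∈ Dp n \ I, ∃ r : ℝ, 0 < r ∧
      ((∀ z' ∈ Metric.ball z r, PB A f w z' = 0) ∨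
        volume {z' ∈ Metric.ball z r | PB A f w z' = 0} = 0) := by
    intro z hz
    obtain ⟨a, ha1, ha2⟩ := A.cover (f z)
    obtain ⟨o1, o2, -, o4, o5, -⟩ := hOAO n X ι A f I hS a
    have hzO : z ∈ Oa A f I a := o4 1 (by norm_num) ⟨hz, ha1, Metric.ball_subset_closedBall ha2⟩
    obtain ⟨r, hr, hball⟩ := Metric.isOpen_iff.1 o1 z hzO
    have hd := det_differentiableOn hSMO Metric.isOpen_ball (o2.mono hball)
    have hiff : ∀ z' ∈ Metric.ball z r, PB A f w z' = 0 ↔ (jac (FF A f a) z').det = 0 := by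
      intro z' hz'
      obtain ⟨h1, h2⟩ := o5 (hball hz')
      obtain ⟨c1, c2, -, -⟩ := hcmp f I hS z' h1 a h2
      constructor
      · intro h0
        rw [h0, mul_zero] at c1
        have h3 : ‖(jac (FF A f a) z').det‖ ^ 2 = 0 := le_antisymm c1 (sq_nonneg _)
        exact norm_eq_zero.1 (pow_eq_zero_iff (two_ne_zero) |>.1 h3)
      · intro h0
        rw [h0, norm_zero, zero_pow two_ne_zero] at c1
        rw [h0, norm_zero, zero_pow two_ne_zero, mul_zero] at c2
        have h3 : 0 ≤ PB A f w z' := nonneg_of_mul_nonneg_right c1 hC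
        exact le_antisymm c2 h3
    refine ⟨r, hr, ?_⟩
    by_cases hex : ∃ z' ∈ Metric.ball z r, (jac (FF A f a) z').det ≠ 0
    · right
      have hv := hZER n z r _ hd hex
      have he : {z' ∈ Metric.ball z r | PB A f w z' = 0} =
          {z' ∈ Metric.ball z r | (jac (FF A f a) z').det = 0} := by
        ext z'
        constructor
        · rintro ⟨h1, h2⟩
          exact ⟨h1, (hiff z' h1).1 h2⟩
        · rintro ⟨h1, h2⟩
          exact ⟨h1, (hiff z' h1).2 h2⟩
      rw [he]
      exact hv
    · left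
      push Not at hex
      intro z' hz'
      exact (hiff z' hz').2 (hex z' hz')
  -- the locally constant proposition
  set g : V n → Prop := fun z => ∀ᶠ z' in 𝓝 z, PB A f w z' = 0 with hg
  have hg1 : ∀ z r, 0 < r → (∀ z' ∈ Metric.ball z r, PB A f w z' = 0) →
      ∀ z' ∈ Metric.ball z r, g z' := by
    intro z r _ h z' hz'
    exact Filter.mem_of_superset (Metric.isOpen_ball.mem_nhds hz') h
  have hg2 : ∀ z r, 0 < r → volume {z' ∈ Metric.ball z r | PB A f w z' = 0} = 0 →
      ∀ z' ∈ Metric.ball z r, ¬ g z' := by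
    intro z r _ h z' hz' hgz
    have h1 : {z' ∈ Metric.ball z r | PB A f w z' = 0} ∈ 𝓝 z' :=
      Filter.inter_mem (Metric.isOpen_ball.mem_nhds hz') hgz
    have h2 : 0 < volume {z' ∈ Metric.ball z r | PB A f w z' = 0} :=
      Measure.measure_pos_of_mem_nhds volume h1
    exact h2.ne' h
  have hconst := (hCNN n X ι A f I hS 1 one_pos le_rfl).1 Prop g (by
    intro z hz _
    obtain ⟨r, hr, hcase⟩ := hloc z hz
    filter_upwards [Metric.isOpen_ball.mem_nhds (Metric.mem_ball_self hr)] with z' hz'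
    rcases hcase with hcase | hcase
    · exact propext ⟨fun _ => hg1 z r hr hcase z (Metric.mem_ball_self hr),
        fun _ => hg1 z r hr hcase z' hz'⟩
    · exact propext ⟨fun h => absurd h (hg2 z r hr hcase z' hz'),
        fun h => absurd h (hg2 z r hr hcase z (Metric.mem_ball_self hr))⟩)
  by_cases hex : ∃ z₀ ∈ Dp n \ I, g z₀
  · left
    obtain ⟨z₀, hz₀, hgz₀⟩ := hex
    intro z hz
    have h1 : g z := by
      rw [hconst z hz z₀ hz₀ hz.1.2 hz₀.1.2]
      exact hgz₀
    exact h1.self_of_nhds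
  · right
    push Not at hex
    refine measure_null_of_locally_null _ fun z hz => ?_
    obtain ⟨r, hr, hcase⟩ := hloc z hz.1
    rcases hcase with hcase | hcase
    · exact absurd (hg1 z r hr hcase z (Metric.mem_ball_self hr)) (hex z hz.1)
    · refine ⟨{z' ∈ Metric.ball z r | PB A f w z' = 0}, ?_, hcase⟩
      rw [mem_nhdsWithin]
      refine ⟨Metric.ball z r, Metric.isOpen_ball, Metric.mem_ball_self hr, ?_⟩
      rintro y ⟨hy1, hy2⟩
      exact ⟨hy1, hy2.2⟩

end Pool.Agent.H2.VG
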