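import Pool.Agent.H95.VG.Targets1
import Pool.Agent.H95.VG.Targets4

/-!
# Module VOD: the volume density in a chart
-/

open MeasureTheory Set Filter Topology
open scoped ENNReal NNReal ContDiff Manifold ComplexConjugate

namespace Pool.Agent.H2.VG

open Pool.Agent.H95.VG

variable {n : ℕ} {X : Type} [TopologicalSpace X] [ChartedSpace (Fin n → ℂ) X]

/-- the metric as a function of vectors of the model space -/
def Hg (g : HMetric n X) (x : X) (u v : V n) : ℂ := g.H x u v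

theorem Hg_zero (g : HMetric n X) (x : X) (w : V n) : Hg g x 0 w = 0 := by
  have h := g.smul_left x (0 : ℂ) (0 : V n) w
  have h2 : Hg g x ((0 : ℂ) • (0 : V n)) w = 0 * Hg g x 0 w := h
  rwa [zero_smul, zero_mul] at h2

/-- the metric as a linear map in the first argument -/
def HL (g : HMetric n X) (x : X) (w : V n) : V n →ₗ[ℂ] ℂ where
  toFun u := Hg g x u w
  map_add' u v := g.add_left x u v w
  map_smul' c u := g.smul_left x c u w

theorem Hg_sum_left (g : HMetric n X) (x : X) (a : Fin n → ℂ) (u : Fin n → V n) (w : V n) :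
    Hg g x (∑ i, a i • u i) w = ∑ i, a i * Hg g x (u i) w := by
  have h : HL g x w (∑ i, a i • u i) = ∑ i, a i * HL g x w (u i) := by
    rw [map_sum]
    refine Finset.sum_congr rfl fun i _ => ?_
    rw [map_smul, smul_eq_mul]
  exact h

theorem Hg_sum_right (g : HMetric n X) (x : X) (b : Fin n → ℂ) (v : Fin n → V n) (w : V n) :
    Hg g x w (∑ i, b i • v i) = ∑ i, conj (b i) * Hg g x w (v i) := by
  have h1 : ∀ u v : V n, Hg g x v u = conj (Hg g x u v) := fun u v => g.symm x u v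
  rw [h1, Hg_sum_left, map_sum]
  refine Finset.sum_congr rfl fun i _ => ?_
  rw [map_mul, ← h1]

/-- Gram matrix of the images of the coordinate vectors -/
noncomputable def Gr (g : HMetric n X) (f : V n → X) (z : V n) : Matrix (Fin n) (Fin n) ℂ :=
  Matrix.of fun i j => g.H (f z)
    (mfderiv 𝓘(ℂ, Fin n → ℂ) 𝓘(ℂ, Fin n → ℂ) f z (Pi.single i 1 : Fin n → ℂ))
    (mfderiv 𝓘(ℂ, Fin n → ℂ) 𝓘(ℂ, Fin n → ℂ) f z (Pi.single j 1 : Fin n → ℂ))

theorem volDensity_eq (g : HMetric n X) (f : V n → X) (z : V n) :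
    volDensity g f z = n.factorial * (Gr g f z).det.re := rfl

omit [ChartedSpace (Fin n → ℂ) X] in
theorem ev_eq {f : V n → X} {φ : OpenPartialHomeomorph X (V n)} {z : V n}
    (hf : ContinuousAt f z) (hz : f z ∈ φ.source) :
    f =ᶠ[𝓝 z] fun x => φ.symm (φ (f x)) := by
  filter_upwards [hf (φ.open_source.mem_nhds hz)] with x hx
  exact (φ.left_inv hx).symm

theorem mfderiv_eq {f : V n → X} {φ : OpenPartialHomeomorph X (V n)} {z : V n}
    (hf : MDifferentiableAt 𝓘(ℂ, Fin n → ℂ) 𝓘(ℂ, Fin n → ℂ) f z) (hz : f z ∈ φ.source)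
    (hφ : MDifferentiableAt 𝓘(ℂ, Fin n → ℂ) 𝓘(ℂ, Fin n → ℂ) φ (f z))
    (hφs : MDifferentiableAt 𝓘(ℂ, Fin n → ℂ) 𝓘(ℂ, Fin n → ℂ) φ.symm (φ (f z))) (u : V n) :
    (mfderiv 𝓘(ℂ, Fin n → ℂ) 𝓘(ℂ, Fin n → ℂ) f z u : V n) =
      (mfderiv 𝓘(ℂ, Fin n → ℂ) 𝓘(ℂ, Fin n → ℂ) φ.symm (φ (f z))
        (fderiv ℂ (fun x => φ (f x)) z u) : V n) := by
  have h1 : HasMFDerivAt 𝓘(ℂ, Fin n → ℂ) 𝓘(ℂ, Fin n → ℂ) (fun x => φ (f x)) z
      (fderiv ℂ (fun x => φ (f x)) z) := by
    have h2 := (hφ.comp z hf).hasMFDerivAt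
    rw [mfderiv_eq_fderiv] at h2
    exact h2
  have h3 := hφs.hasMFDerivAt.comp z h1
  have h4 := h3.congr_of_eventuallyEq (ev_eq hf.continuousAt hz)
  rw [h4.mfderiv]
  rfl

theorem Gr_det (g : HMetric n X) {f : V n → X} {φ : OpenPartialHomeomorph X (V n)} {z : V n}
    (hf : MDifferentiableAt 𝓘(ℂ, Fin n → ℂ) 𝓘(ℂ, Fin n → ℂ) f z) (hz : f z ∈ φ.source)
    (hφ : MDifferentiableAt 𝓘(ℂ, Fin n → ℂ) 𝓘(ℂ, Fin n → ℂ) φ (f z))
    (hφs : MDifferentiableAt 𝓘(ℂ, Fin n → ℂ) 𝓘(ℂ, Fin n → ℂ) φ.symm (φ (f z))) :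
    (Gr g f z).det = (jac (fun x => φ (f x)) z).det * conj (jac (fun x => φ (f x)) z).det *
      (Gr g φ.symm (φ (f z))).det := by
  set J := jac (fun x => φ (f x)) z with hJ
  set y := φ (f z) with hy
  have hyz : φ.symm y = f z := φ.left_inv hz
  set D : V n →L[ℂ] V n := mfderiv 𝓘(ℂ, Fin n → ℂ) 𝓘(ℂ, Fin n → ℂ) φ.symm y with hD
  have h1 : ∀ i : Fin n, (mfderiv 𝓘(ℂ, Fin n → ℂ) 𝓘(ℂ, Fin n → ℂ) f z
      (Pi.single i 1 : Fin n → ℂ) : V n) = ∑ k, J k i • D (Pi.single k 1) := by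
    intro i
    rw [mfderiv_eq hf hz hφ hφs]
    have h2 : fderiv ℂ (fun x => φ (f x)) z (Pi.single i 1) =
        ∑ k, J k i • (Pi.single k 1 : V n) := by
      rw [pi_eq_sum_univ' (fderiv ℂ (fun x => φ (f x)) z (Pi.single i 1))]
      refine Finset.sum_congr rfl fun k _ => ?_
      congr 1
    have h3 : D (∑ k, J k i • (Pi.single k 1 : V n)) = ∑ k, J k i • D (Pi.single k 1) := by
      rw [map_sum]
      refine Finset.sum_congr rfl fun k _ => ?_
      rw [map_smul]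
    rw [h2]
    exact h3
  have h4 : Gr g f z = J.transpose * Gr g φ.symm y * J.map conj := by
    ext i j
    have h5 : Gr g f z i j = Hg g (f z) (∑ k, J k i • D (Pi.single k 1))
        (∑ k, J k j • D (Pi.single k 1)) := by
      have h6 : Gr g f z i j = Hg g (f z)
        (mfderiv 𝓘(ℂ, Fin n → ℂ) 𝓘(ℂ, Fin n → ℂ) f z (Pi.single i 1 : Fin n → ℂ))
        (mfderiv 𝓘(ℂ, Fin n → ℂ) 𝓘(ℂ, Fin n → ℂ) f z (Pi.single j 1 : Fin n → ℂ)) := rfl
      rw [h6, h1, h1]
    have h7 : ∀ k l, Gr g φ.symm y k l = Hg g (f z) (D (Pi.single k 1)) (D (Pi.single l 1)) := by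
      intro k l
      rw [← hyz]
      rfl
    rw [h5, Hg_sum_left, Matrix.mul_apply]
    simp only [Hg_sum_right, Matrix.mul_apply, Matrix.transpose_apply, Matrix.map_apply, h7,
      Finset.mul_sum, Finset.sum_mul]
    rw [Finset.sum_comm]
    refine Finset.sum_congr rfl fun k _ => Finset.sum_congr rfl fun l _ => ?_
    ring
  rw [h4, Matrix.det_mul, Matrix.det_mul, Matrix.det_transpose]
  have h8 : (J.map conj).det = conj J.det := by
    rw [← RingHom.mapMatrix_apply, ← RingHom.map_det]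
  rw [h8]
  ring

theorem jac_continuousOn (hSMO : T_SMO) {O : Set (V n)} (hO : IsOpen O) {Y : V n → V n}
    (hY : DifferentiableOn ℂ Y O) : ContinuousOn (jac Y) O := by
  have h1 : ContinuousOn (fderiv ℂ Y) O :=
    (hSMO n (V n) O Y hO hY).1.continuousOn_fderiv_of_isOpen hO (by simp)
  have h2 : ∀ i j, ContinuousOn (fun z => jac Y z i j) O := by
    intro i j
    have h3 : ContinuousOn (fun z => fderiv ℂ Y z (ek j)) O :=
      h1.clm_apply continuousOn_const
    exact (continuous_apply i).comp_continuousOn h3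
  exact continuousOn_pi.2 fun i => continuousOn_pi.2 fun j => h2 i j

theorem chart_gr (g : HMetric n X) (x₀ : X) :
    ContinuousOn (fun y => (Gr g (chartAt (Fin n → ℂ) x₀).symm y).det)
      (chartAt (Fin n → ℂ) x₀).target := by
  have h1 : ContinuousOn (fun y => Gr g (chartAt (Fin n → ℂ) x₀).symm y)
      (chartAt (Fin n → ℂ) x₀).target :=
    continuousOn_pi.2 fun i => continuousOn_pi.2 fun j =>
      g.cont x₀ (Pi.single i 1) (Pi.single j 1)
  have h2 : Continuous (fun M : Matrix (Fin n) (Fin n) ℂ => M.det) :=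
    continuous_id.matrix_det
  exact h2.comp_continuousOn h1

theorem gr_continuousAt (hSMO : T_SMO) [IsManifold 𝓘(ℂ, Fin n → ℂ) 1 X] (g : HMetric n X)
    {φ : OpenPartialHomeomorph X (V n)}
    (hφs : MDifferentiableOn 𝓘(ℂ, Fin n → ℂ) 𝓘(ℂ, Fin n → ℂ) φ.symm φ.target) {y₀ : V n}
    (hy₀ : y₀ ∈ φ.target) : ContinuousAt (fun y => (Gr g φ.symm y).det) y₀ := by
  set ψ := chartAt (Fin n → ℂ) (φ.symm y₀) with hψ
  set U : Set (V n) := φ.target ∩ φ.symm ⁻¹' ψ.source with hU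
  have hUo : IsOpen U := φ.isOpen_inter_preimage_symm ψ.open_source
  have hyU : y₀ ∈ U := ⟨hy₀, mem_chart_source _ _⟩
  have hmd : ∀ y ∈ U, MDifferentiableAt 𝓘(ℂ, Fin n → ℂ) 𝓘(ℂ, Fin n → ℂ) φ.symm y :=
    fun y hy => hφs.mdifferentiableAt (φ.open_target.mem_nhds hy.1)
  have hψa : ∀ y ∈ U, MDifferentiableAt 𝓘(ℂ, Fin n → ℂ) 𝓘(ℂ, Fin n → ℂ) ψ (φ.symm y) :=
    fun y hy => mdifferentiableAt_atlas (chart_mem_atlas _ _) hy.2
  have hψs : ∀ y ∈ U, MDifferentiableAt 𝓘(ℂ, Fin n → ℂ) 𝓘(ℂ, Fin n → ℂ) ψ.symm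
      (ψ (φ.symm y)) :=
    fun y hy => mdifferentiableAt_atlas_symm (chart_mem_atlas _ _) (ψ.map_source hy.2)
  have hdiff : DifferentiableOn ℂ (fun y => ψ (φ.symm y)) U := by
    intro y hy
    have h1 := (hψa y hy).comp y (hmd y hy)
    exact (mdifferentiableAt_iff_differentiableAt.1 h1).differentiableWithinAt
  have hev : (fun y => (Gr g φ.symm y).det) =ᶠ[𝓝 y₀] fun y =>
      (jac (fun x => ψ (φ.symm x)) y).det * conj (jac (fun x => ψ (φ.symm x)) y).det *
      (Gr g ψ.symm (ψ (φ.symm y))).det := by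
    filter_upwards [hUo.mem_nhds hyU] with y hy
    exact Gr_det g (hmd y hy) hy.2 (hψa y hy) (hψs y hy)
  refine ContinuousAt.congr ?_ hev.symm
  have hj : ContinuousAt (fun y => (jac (fun x => ψ (φ.symm x)) y).det) y₀ := by
    have h2 : Continuous (fun M : Matrix (Fin n) (Fin n) ℂ => M.det) :=
      continuous_id.matrix_det
    exact h2.continuousAt.comp
      ((jac_continuousOn hSMO hUo hdiff).continuousAt (hUo.mem_nhds hyU))
  have hG : ContinuousAt (fun y => (Gr g ψ.symm (ψ (φ.symm y))).det) y₀ := by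
    have h3 : ContinuousAt (fun y => (Gr g ψ.symm y).det) (ψ (φ.symm y₀)) :=
      (chart_gr g (φ.symm y₀)).continuousAt
        (ψ.open_target.mem_nhds (ψ.map_source hyU.2))
    exact ContinuousAt.comp (f := fun y => ψ (φ.symm y)) h3
      (hdiff.continuousOn.continuousAt (hUo.mem_nhds hyU))
  exact (hj.mul (Complex.continuous_conj.continuousAt.comp hj)).mul hG

theorem vod_proof (hSMO : T_SMO) : T_VOD := by
  intro n X _ _ _ _ _ g ι _ A hA
  have hb : ∀ a, ∃ C : ℝ, ∀ y ∈ Metric.closedBall (0 : V n) 2,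
      ‖(Gr g (A.φ a).symm y).det‖ ≤ C := by
    intro a
    refine (isCompact_closedBall (0 : V n) 2).exists_bound_of_continuousOn ?_
    intro y hy
    exact (gr_continuousAt hSMO g (hA a).2
      (A.ball a (Metric.closedBall_subset_closedBall (by norm_num) hy))).continuousWithinAt
  choose C hC using hb
  have hC0 : ∀ a, 0 ≤ C a := fun a =>
    (norm_nonneg _).trans (hC a 0 (Metric.mem_closedBall_self (by norm_num)))
  refine ⟨1 + ∑ a, n.factorial * C a, ?_, ?_⟩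
  · have : 0 ≤ ∑ a, n.factorial * C a :=
      Finset.sum_nonneg fun a _ => mul_nonneg (Nat.cast_nonneg _) (hC0 a)
    linarith
  intro f z a hf hz
  have hφ : MDifferentiableAt 𝓘(ℂ, Fin n → ℂ) 𝓘(ℂ, Fin n → ℂ) (A.φ a) (f z) :=
    (hA a).1.mdifferentiableAt ((A.φ a).open_source.mem_nhds hz)
  have hφs : MDifferentiableAt 𝓘(ℂ, Fin n → ℂ) 𝓘(ℂ, Fin n → ℂ) (A.φ a).symm (A.φ a (f z)) :=
    (hA a).2.mdifferentiableAt ((A.φ a).open_target.mem_nhds ((A.φ a).map_source hz))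
  refine ⟨?_, ?_⟩
  · have h1 := hφ.comp z hf
    exact mdifferentiableAt_iff_differentiableAt.1 h1
  · intro hy
    rw [volDensity_eq, Gr_det g hf hz hφ hφs]
    have h2 : (jac (fun x => A.φ a (f x)) z).det * conj (jac (fun x => A.φ a (f x)) z).det =
        ((‖(jac (FF A f a) z).det‖ ^ 2 : ℝ) : ℂ) := by
      rw [Complex.mul_conj, Complex.normSq_eq_norm_sq]
      rfl
    rw [h2, Complex.re_ofReal_mul]
    have h3 : (Gr g (A.φ a).symm (A.φ a (f z))).det.re ≤ C a :=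
      (Complex.re_le_norm _).trans (hC a _ hy)
    have h4 : (n.factorial : ℝ) * C a ≤ 1 + ∑ a, n.factorial * C a := by
      have h5 : (n.factorial : ℝ) * C a ≤ ∑ a, n.factorial * C a :=
        Finset.single_le_sum (f := fun a => (n.factorial : ℝ) * C a)
          (fun a _ => mul_nonneg (Nat.cast_nonneg _) (hC0 a)) (Finset.mem_univ a)
      linarith
    have h6 : 0 ≤ ‖(jac (FF A f a) z).det‖ ^ 2 := sq_nonneg _
    calc (n.factorial : ℝ) * (‖(jac (FF A f a) z).det‖ ^ 2 *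
          (Gr g (A.φ a).symm (A.φ a (f z))).det.re)
        ≤ n.factorial * (‖(jac (FF A f a) z).det‖ ^ 2 * C a) :=
          mul_le_mul_of_nonneg_left (mul_le_mul_of_nonneg_left h3 h6) (Nat.cast_nonneg _)
      _ = n.factorial * C a * ‖(jac (FF A f a) z).det‖ ^ 2 := by ring
      _ ≤ (1 + ∑ a, n.factorial * C a) * ‖(jac (FF A f a) z).det‖ ^ 2 :=
          mul_le_mul_of_nonneg_right h4 h6

end Pool.Agent.H2.VG
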